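import Mathlib
import Pool.Agent.N741.HB.Thm2
import Pool.Agent.Y902.GN.FinB

/-!
# The n-term abc equation with few bases and a power of an integer of exponential size

For all `n`, `N`, `E` and `ε > 0` there are `R`, `R'` and `δ > 0` such that for every `Y ≥ 1` the
following holds. Consider all admissible `(n + 1)`-tuples `a` (coprime, with sum zero, without
vanishing proper partial sum) with `|a i| ≤ exp (Y ^ δ)`, the first `n` of which are products of
powers, with arbitrary exponents, of `N` positive integers `x j ≤ Y` and of an integer of absolute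
value at most `Y ^ E`, and the last of which is `s * z ^ r` with `|s| ≤ Y ^ E`, `r ≥ R'` and an
arbitrary integer `z`. Let `A i` be the product of those powers in `a i`, `i < n`, whose exponent is
at least `R`, and `w = |z| ^ r`. Then `(A, w)` takes at most `Y ^ ε` values altogether.

So `z`, and the radical of the product of the `a i`, may be of exponential size. The complementary
factors of `A i` and `w` are at most `Y ^ (E + R * N)`.

Parts of the proof by helpers 20, 26, 27, 54, 72, 152, 368, 403, 426, 459, 572, 603, 618, 966 (see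
Pool/Agent/N741/HB/Thm.lean and Thm2.lean); it uses the core theorem of helper902.
-/

set_option autoImplicit false

namespace Pool.Agent.Results.MP_a95293_nt.HugePower

/-- admissible tuples: coprime integers with sum zero and no vanishing proper partial sum -/
def Admissible {n : ℕ} (a : Fin n → ℤ) : Prop :=
  Finset.univ.gcd a = 1 ∧ ∑ i, a i = 0 ∧
    ∀ K : Finset (Fin n), K.Nonempty → K ≠ Finset.univ → ∑ i ∈ K, a i ≠ 0

/-- the large parts `A` of the first `n` members and the power `w = |z| ^ r` in the last member of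
the admissible `(n + 1)`-tuples of the form considered -/
def Parts (n N E R R' Y : ℕ) (δ : ℝ) : Set ((Fin n → ℕ) × ℕ) :=
  {p | ∃ (a : Fin (n + 1) → ℤ) (x : Fin N → ℕ) (e : Fin n → Fin N → ℕ) (s : Fin n → ℤ)
    (s₀ z : ℤ) (r : ℕ), Admissible a ∧ (∀ i, ((|a i| : ℤ) : ℝ) ≤ Real.exp ((Y : ℝ) ^ δ)) ∧
    (∀ j, 1 ≤ x j ∧ x j ≤ Y) ∧ (∀ i, |s i| ≤ (Y : ℤ) ^ E) ∧ |s₀| ≤ (Y : ℤ) ^ E ∧ R' ≤ r ∧
    (∀ i, a (Fin.castSucc i) = s i * ∏ j, (x j : ℤ) ^ e i j) ∧ a (Fin.last n) = s₀ * z ^ r ∧
    (∀ i, p.1 i = ∏ j, if R ≤ e i j then x j ^ e i j else 1) ∧ p.2 = z.natAbs ^ r}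

open Pool.Agent.N741.HB in
/-- **Few vectors of large parts.** -/
theorem result (n N E : ℕ) (hn : 1 ≤ n) (ε : ℝ) (hε : 0 < ε) : ∃ (R R' : ℕ) (δ : ℝ), 0 < δ ∧
    ∀ Y : ℕ, 1 ≤ Y → (Parts n N E R R' Y δ).Finite ∧
      ((Parts n N E R R' Y δ).ncard : ℝ) ≤ (Y : ℝ) ^ ε := by
  classical
  obtain ⟨R₁, δ₁, hδ₁, H₁⟩ := lp n N E (ε / 3) (by positivity)
  obtain ⟨E', hE'⟩ : ∃ E', E' = E + N * R₁ + 1 := ⟨_, rfl⟩
  have hE'0 : (0 : ℝ) < (E' : ℝ) := by rw [hE']; positivity
  obtain ⟨R₂, δ₂, hδ₂, H₂⟩ := pv n 1 (ε / (3 * E')) (by positivity)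
  obtain ⟨δ, hδd⟩ : ∃ δ, δ = min δ₁ δ₂ := ⟨_, rfl⟩
  have hδ : 0 < δ := by rw [hδd]; exact lt_min hδ₁ hδ₂
  have hδ1 : δ ≤ δ₁ := by rw [hδd]; exact min_le_left _ _
  have hδ2 : δ ≤ δ₂ := by rw [hδd]; exact min_le_right _ _
  -- small `Y`
  obtain ⟨Y₁, hY₁⟩ : ∃ Y₁ : ℕ, ∀ Y : ℕ, Y₁ ≤ Y → (2 : ℝ) ≤ (Y : ℝ) ^ (ε / 3) := by
    have h1 := ((tendsto_rpow_atTop (show (0 : ℝ) < ε / 3 by positivity)).comp
      (tendsto_natCast_atTop_atTop (R := ℝ))).eventually_ge_atTop 2
    obtain ⟨Y₁, h2⟩ := Filter.eventually_atTop.1 h1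
    exact ⟨Y₁, h2⟩
  obtain ⟨R₃, hR₃⟩ := exists_nat_ge (Real.exp ((Y₁ : ℝ) ^ δ))
  refine ⟨R₁, max (max R₁ R₂) (max R₃ 1), δ, hδ, fun Y hY => ?_⟩
  have hY1 : (1 : ℝ) ≤ (Y : ℝ) := by exact_mod_cast hY
  refine Pool.Agent.Y902.GN.fin_of_bound _ _ fun T hT => ?_
  choose! a x e s s₀ z r hT1 hT2 hT3 hT4 hT5 hT6 hT7 hT8 hT9 hT10 using hT
  have hR1 : ∀ p ∈ T, R₁ ≤ r p := fun p hp =>
    ((le_max_left _ _).trans (le_max_left _ _)).trans (hT6 p hp)
  have hR2 : ∀ p ∈ T, R₂ ≤ r p := fun p hp =>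
    ((le_max_right _ _).trans (le_max_left _ _)).trans (hT6 p hp)
  have hR3 : ∀ p ∈ T, R₃ ≤ r p := fun p hp =>
    ((le_max_left _ _).trans (le_max_right _ _)).trans (hT6 p hp)
  have hR0 : ∀ p ∈ T, 1 ≤ r p := fun p hp =>
    ((le_max_right _ _).trans (le_max_right _ _)).trans (hT6 p hp)
  -- the members are nonzero
  have hne : ∀ p ∈ T, ∀ i, a p i ≠ 0 := by
    intro p hp i
    have h1 := (hT1 p hp).2.2 {i} (Finset.singleton_nonempty i) (by
      intro h0
      have h2 := congrArg Finset.card h0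
      rw [Finset.card_singleton, Finset.card_univ, Fintype.card_fin] at h2
      omega)
    rwa [Finset.sum_singleton] at h1
  have hsum : ∀ p ∈ T, ∑ i : Fin n, a p (Fin.castSucc i) = -(s₀ p * z p ^ r p) := by
    intro p hp
    have h1 := (hT1 p hp).2.1
    rw [Fin.sum_univ_castSucc, hT8 p hp] at h1
    linarith
  have hs0 : ∀ p ∈ T, s₀ p ≠ 0 := by
    intro p hp h0
    apply hne p hp (Fin.last n)
    rw [hT8 p hp, h0, zero_mul]
  have hz0 : ∀ p ∈ T, z p ≠ 0 := by
    intro p hp h0
    apply hne p hp (Fin.last n)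
    rw [hT8 p hp, h0, zero_pow (by have := hR0 p hp; omega), mul_zero]
  have hzb : ∀ p ∈ T, ((|z p| ^ r p : ℤ) : ℝ) ≤ Real.exp ((Y : ℝ) ^ δ) := by
    intro p hp
    refine le_trans ?_ (hT2 p hp (Fin.last n))
    rw [hT8 p hp, abs_mul, abs_pow]
    have h1 := Int.one_le_abs (hs0 p hp)
    have h2 : (0 : ℤ) ≤ |z p| ^ r p := by positivity
    exact_mod_cast le_mul_of_one_le_left h2 h1
  have hzb' : ∀ p ∈ T, ((|z p| : ℤ) : ℝ) ≤ Real.exp ((Y : ℝ) ^ δ) := by
    intro p hp
    refine le_trans ?_ (hzb p hp)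
    exact_mod_cast le_self_pow₀ (Int.one_le_abs (hz0 p hp)) (by have := hR0 p hp; omega)
  have hexp1 : Real.exp ((Y : ℝ) ^ δ) ≤ Real.exp ((Y : ℝ) ^ δ₁) :=
    Real.exp_le_exp.2 (Real.rpow_le_rpow_of_exponent_le hY1 hδ1)
  -- few large parts
  have hA : ((T.image Prod.fst).card : ℝ) ≤ (Y : ℝ) ^ (ε / 3) := by
    refine H₁ Y hY (fun _ => 1) (-1) (fun i => ⟨one_ne_zero, ?_⟩) (by norm_num) ?_ _
      fun A hA => ?_
    · rw [abs_one, Int.cast_one]
      exact Real.one_le_exp (by positivity)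
    · rw [abs_neg, abs_one, Int.cast_one]
      exact Real.one_le_exp (by positivity)
    · obtain ⟨p, hp, rfl⟩ := Finset.mem_image.1 hA
      refine ⟨fun i => a p (Fin.castSucc i), s p, x p, e p, s₀ p, fun _ => 0, z p, r p, ?_, ?_, ?_,
        hT3 p hp, hT4 p hp, hT5 p hp, hT7 p hp, hT9 p hp, ?_, hR1 p hp, (hzb' p hp).trans hexp1, ?_⟩
      · intro d hd
        have h1 : (d : ℤ) ∣ Finset.univ.gcd (a p) := by
          refine Finset.dvd_gcd fun i _ => ?_
          refine Fin.lastCases ?_ (fun i => hd i) i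
          have h2 : a p (Fin.last n) = -∑ i : Fin n, a p (Fin.castSucc i) := by
            rw [hsum p hp, hT8 p hp, neg_neg]
          rw [h2]
          exact (dvd_neg).2 (Finset.dvd_sum fun i _ => hd i)
        rw [(hT1 p hp).1] at h1
        have h2 := Int.eq_one_of_dvd_one (by positivity) h1
        exact_mod_cast h2
      · intro J hJ
        have h1 := (hT1 p hp).2.2 (J.map Fin.castSuccEmb) (hJ.map) (by
          intro h0
          have h2 : Fin.last n ∈ J.map Fin.castSuccEmb := by rw [h0]; exact Finset.mem_univ _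
          obtain ⟨i, _, hi⟩ := Finset.mem_map.1 h2
          exact absurd hi (Fin.castSucc_lt_last i).ne)
        rw [Finset.sum_map] at h1
        simpa using h1
      · exact fun i => (hT2 p hp _).trans hexp1
      · simp only [pow_zero, Finset.prod_const_one]
        exact Real.one_le_exp (by positivity)
      · simp only [pow_zero, Finset.prod_const_one, one_mul, mul_one]
        rw [hsum p hp]
        ring
  -- few powers
  obtain ⟨Y', hY'd⟩ : ∃ Y' : ℕ, Y' = Y ^ E' := ⟨_, rfl⟩
  have hYY' : Y ≤ Y' := by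
    rw [hY'd]
    exact Nat.le_self_pow (by omega) _
  have hY'1 : 1 ≤ Y' := hY.trans hYY'
  have hY'e : (Y' : ℝ) ^ (ε / (3 * E')) = (Y : ℝ) ^ (ε / 3) := by
    rw [hY'd]
    push_cast
    rw [← Real.rpow_natCast, ← Real.rpow_mul (by positivity)]
    congr 1
    field_simp
  have hW : ∀ A ∈ T.image Prod.fst, (((T.filter fun p => p.1 = A ∧ 2 ≤ |z p|).image
      fun p => z p ^ r p).card : ℝ) ≤ (Y : ℝ) ^ (ε / 3) := by
    intro A hA
    rw [← hY'e]
    refine H₂ Y' hY'1 1 (∑ i, MvPolynomial.C (A i : ℤ) * MvPolynomial.X i) le_rfl ?_ ?_ ?_ _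
      fun w hw => ?_
    · rw [Nat.cast_one]
      exact Real.one_le_rpow (by exact_mod_cast hY'1) hδ₂.le
    · refine MvPolynomial.totalDegree_finsetSum_le fun i _ => ?_
      refine (MvPolynomial.totalDegree_mul _ _).trans ?_
      rw [MvPolynomial.totalDegree_C, zero_add, MvPolynomial.totalDegree_X]
    · intro m
      obtain ⟨p, hp, rfl⟩ := Finset.mem_image.1 hA
      rw [MvPolynomial.coeff_sum]
      have h1 : ∀ i, MvPolynomial.coeff m (MvPolynomial.C (p.1 i : ℤ) * MvPolynomial.X i) =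
          if Finsupp.single i 1 = m then (p.1 i : ℤ) else 0 := by
        intro i
        rw [MvPolynomial.coeff_C_mul, MvPolynomial.coeff_X]
        split_ifs <;> simp
      have h2 : |∑ i, MvPolynomial.coeff m (MvPolynomial.C (p.1 i : ℤ) * MvPolynomial.X i)| = 0 ∨
          ∃ i, |∑ i, MvPolynomial.coeff m (MvPolynomial.C (p.1 i : ℤ) * MvPolynomial.X i)| =
            (p.1 i : ℤ) := by
        by_cases h3 : ∃ i : Fin n, Finsupp.single i 1 = m
        · obtain ⟨i, hi⟩ := h3
          right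
          refine ⟨i, ?_⟩
          rw [Finset.sum_eq_single i]
          · rw [h1, if_pos hi]
            exact abs_of_nonneg (by positivity)
          · intro j _ hj
            rw [h1, if_neg]
            intro h4
            rw [← hi] at h4
            exact hj (Finsupp.single_left_injective (by norm_num) h4)
          · intro h4
            exact absurd (Finset.mem_univ i) h4
        · left
          rw [Finset.sum_eq_zero, abs_zero]
          intro i _
          rw [h1, if_neg fun h4 => h3 ⟨i, h4⟩]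
      rcases h2 with h2 | ⟨i, h2⟩
      · rw [h2, Int.cast_zero]
        positivity
      · rw [h2]
        have h3 : ((p.1 i : ℕ) : ℤ) ≤ |a p (Fin.castSucc i)| := by
          have h4 : (p.1 i : ℤ) ∣ a p (Fin.castSucc i) := by
            rw [hT7 p hp, hT9 p hp i]
            push_cast
            refine Dvd.dvd.mul_left (Finset.prod_dvd_prod_of_dvd _ _ fun j _ => ?_) _
            split_ifs
            · exact dvd_rfl
            · exact one_dvd _
          have h5 := Int.le_of_dvd (abs_pos.2 (hne p hp _)) ((dvd_abs _ _).2 h4)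
          exact h5
        have h4 : (((p.1 i : ℕ) : ℤ) : ℝ) ≤ Real.exp ((Y : ℝ) ^ δ) :=
          le_trans (by exact_mod_cast h3) (hT2 p hp (Fin.castSucc i))
        refine h4.trans (Real.exp_le_exp.2 ?_)
        calc (Y : ℝ) ^ δ ≤ (Y : ℝ) ^ δ₂ := Real.rpow_le_rpow_of_exponent_le hY1 hδ2
          _ ≤ (Y' : ℝ) ^ δ₂ := Real.rpow_le_rpow (by positivity) (by exact_mod_cast hYY') hδ₂.le
    · obtain ⟨p, hp, rfl⟩ := Finset.mem_image.1 hw
      obtain ⟨hp1, hp2, hp3⟩ := Finset.mem_filter.1 hp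
      refine ⟨fun i => s p i * ∏ j, if R₁ ≤ e p i j then 1 else (x p j : ℤ) ^ e p i j,
        -s₀ p, z p, r p, fun i => ?_, neg_ne_zero.2 (hs0 p hp1), ?_, hp3, by
          rw [mul_one]; exact hR2 p hp1, rfl, ?_⟩
      · rw [abs_mul, Finset.abs_prod]
        have h1 : ∏ j, |if R₁ ≤ e p i j then 1 else (x p j : ℤ) ^ e p i j| ≤
            ∏ _j : Fin N, (Y : ℤ) ^ R₁ := by
          refine Finset.prod_le_prod (fun j _ => abs_nonneg _) fun j _ => ?_
          have hx1 : (1 : ℤ) ≤ (x p j : ℤ) := by exact_mod_cast (hT3 p hp1 j).1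
          have hx2 : (x p j : ℤ) ≤ (Y : ℤ) := by exact_mod_cast (hT3 p hp1 j).2
          have hY1' : (1 : ℤ) ≤ (Y : ℤ) := by exact_mod_cast hY
          split_ifs with h2
          · rw [abs_one]
            exact one_le_pow₀ hY1'
          · rw [abs_of_nonneg (by positivity)]
            exact (pow_le_pow_left₀ (by positivity) hx2 _).trans
              (pow_le_pow_right₀ hY1' (by omega))
        calc |s p i| * ∏ j, |if R₁ ≤ e p i j then 1 else (x p j : ℤ) ^ e p i j|
            ≤ (Y : ℤ) ^ E * ∏ _j : Fin N, (Y : ℤ) ^ R₁ :=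
              mul_le_mul (hT4 p hp1 i) h1 (Finset.prod_nonneg fun j _ => abs_nonneg _)
                (by positivity)
          _ = (Y : ℤ) ^ (E + N * R₁) := by
              rw [Finset.prod_const, Finset.card_univ, Fintype.card_fin]
              ring
          _ ≤ (Y : ℤ) ^ E' := pow_le_pow_right₀ (by exact_mod_cast hY) (by omega)
          _ = (Y' : ℤ) := by rw [hY'd]; push_cast; rfl
      · rw [abs_neg, pow_one]
        refine (hT5 p hp1).trans ?_
        rw [hY'd]
        push_cast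
        exact pow_le_pow_right₀ (by exact_mod_cast hY) (by omega)
      · rw [map_sum]
        have h1 : ∀ i, MvPolynomial.eval (fun i => s p i *
            ∏ j, if R₁ ≤ e p i j then 1 else (x p j : ℤ) ^ e p i j)
            (MvPolynomial.C (A i : ℤ) * MvPolynomial.X i) = a p (Fin.castSucc i) := by
          intro i
          rw [map_mul, MvPolynomial.eval_C, MvPolynomial.eval_X, hT7 p hp1, ← hp2, hT9 p hp1]
          push_cast
          have h2 : (∏ j, if R₁ ≤ e p i j then (x p j : ℤ) ^ e p i j else 1) *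
              (∏ j, if R₁ ≤ e p i j then 1 else (x p j : ℤ) ^ e p i j) =
              ∏ j, (x p j : ℤ) ^ e p i j := by
            rw [← Finset.prod_mul_distrib]
            refine Finset.prod_congr rfl fun j _ => ?_
            split_ifs
            · rw [mul_one]
            · rw [one_mul]
          rw [← h2]
          ring
        rw [Finset.sum_congr rfl fun i _ => h1 i, hsum p hp1]
        ring
  -- the end
  have hfib : ∀ A ∈ T.image Prod.fst, (((T.filter fun p => p.1 = A).card : ℕ) : ℝ) ≤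
      (Y : ℝ) ^ (2 * ε / 3) := by
    intro A hA
    have h1 : (T.filter fun p => p.1 = A).card ≤
        ((T.filter fun p => p.1 = A ∧ 2 ≤ |z p|).image fun p => z p ^ r p).card + 1 := by
      have h2 : (T.filter fun p => p.1 = A) ⊆
          ((insert 1 (((T.filter fun p => p.1 = A ∧ 2 ≤ |z p|).image
            fun p => z p ^ r p).image Int.natAbs)).image fun w => (A, w)) := by
        intro p hp
        obtain ⟨hp1, hp2⟩ := Finset.mem_filter.1 hp
        refine Finset.mem_image.2 ⟨p.2, ?_, by rw [← hp2]⟩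
        by_cases h3 : 2 ≤ |z p|
        · refine Finset.mem_insert_of_mem (Finset.mem_image.2 ⟨z p ^ r p, Finset.mem_image.2
            ⟨p, Finset.mem_filter.2 ⟨hp1, hp2, h3⟩, rfl⟩, ?_⟩)
          rw [Int.natAbs_pow, hT10 p hp1]
        · have h4 := Int.one_le_abs (hz0 p hp1)
          have h5 : (z p).natAbs = 1 := by
            have : |z p| = 1 := by omega
            rw [Int.abs_eq_natAbs] at this
            exact_mod_cast this
          rw [hT10 p hp1, h5, one_pow]
          exact Finset.mem_insert_self _ _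
      refine (Finset.card_le_card h2).trans (Finset.card_image_le.trans ?_)
      exact (Finset.card_insert_le _ _).trans (Nat.add_le_add_right Finset.card_image_le _)
    rcases lt_or_ge Y Y₁ with hYs | hYb
    · -- small `Y`
      have h3 : (T.filter fun p => p.1 = A ∧ 2 ≤ |z p|) = ∅ := by
        refine Finset.filter_eq_empty_iff.2 fun p hp hcon => ?_
        have h4 := hzb p hp
        have h5 : ((2 : ℝ)) ^ r p ≤ ((|z p| ^ r p : ℤ) : ℝ) := by
          push_cast
          have : (2 : ℝ) ≤ |(z p : ℝ)| := by exact_mod_cast hcon.2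
          exact pow_le_pow_left₀ (by norm_num) this _
        have h6 : (R₃ : ℝ) < 2 ^ r p := by
          have h7 : r p < 2 ^ r p := Nat.lt_two_pow_self
          have h8 : ((r p : ℕ) : ℝ) < 2 ^ r p := by exact_mod_cast h7
          have h9 : (R₃ : ℝ) ≤ (r p : ℝ) := by exact_mod_cast hR3 p hp
          linarith
        have h7 : Real.exp ((Y : ℝ) ^ δ) ≤ Real.exp ((Y₁ : ℝ) ^ δ) :=
          Real.exp_le_exp.2 (Real.rpow_le_rpow (by positivity) (by exact_mod_cast hYs.le) hδ.le)
        linarith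
      rw [h3, Finset.image_empty, Finset.card_empty, zero_add] at h1
      calc (((T.filter fun p => p.1 = A).card : ℕ) : ℝ) ≤ 1 := by exact_mod_cast h1
        _ ≤ (Y : ℝ) ^ (2 * ε / 3) := Real.one_le_rpow hY1 (by positivity)
    · have h3 := hW A hA
      have h4 := hY₁ Y hYb
      have h5 : (Y : ℝ) ^ (2 * ε / 3) = (Y : ℝ) ^ (ε / 3) * (Y : ℝ) ^ (ε / 3) := by
        rw [← Real.rpow_add (by positivity)]
        congr 1
        ring
      rw [h5]
      have h6 : (((T.filter fun p => p.1 = A).card : ℕ) : ℝ) ≤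
          (((T.filter fun p => p.1 = A ∧ 2 ≤ |z p|).image fun p => z p ^ r p).card : ℝ) + 1 := by
        exact_mod_cast h1
      nlinarith
  have h1 : (T.card : ℝ) = ∑ A ∈ T.image Prod.fst, (((T.filter fun p => p.1 = A).card : ℕ) : ℝ) := by
    rw [← Nat.cast_sum]
    congr 1
    exact Finset.card_eq_sum_card_image Prod.fst T
  rw [h1]
  calc ∑ A ∈ T.image Prod.fst, (((T.filter fun p => p.1 = A).card : ℕ) : ℝ)
      ≤ ∑ _A ∈ T.image Prod.fst, (Y : ℝ) ^ (2 * ε / 3) := Finset.sum_le_sum hfib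
    _ = ((T.image Prod.fst).card : ℝ) * (Y : ℝ) ^ (2 * ε / 3) := by
        rw [Finset.sum_const, nsmul_eq_mul]
    _ ≤ (Y : ℝ) ^ (ε / 3) * (Y : ℝ) ^ (2 * ε / 3) := by
        refine mul_le_mul_of_nonneg_right hA (by positivity)
    _ = (Y : ℝ) ^ ε := by
        rw [← Real.rpow_add (by positivity)]
        congr 1
        ring

end Pool.Agent.Results.MP_a95293_nt.HugePower
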