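import Pool.Agent.N733.TG.K
import Pool.Agent.Results.MP_a95293_nt.DivisorsInWindows

/-!
# The `n`-term abc conjecture for tuples with a divisor of the product near the values of multiplicative functions

Let `f` be a positive multiplicative function of at most polynomial growth such that `f p ≤ M p` for the large primes `p`,
with different values at different large primes; for example Euler's function or the sum of the divisors. Let `G` have steps
bounded below by a positive constant and growth at most `v^d`, `d ≥ 1`; for example `G v = α v^d`. Let `n ≥ 3`, `0 ≤ θ < 1`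
and `A > 0`. There is `M` (depending on `n`, `d`, `θ`, `A`) such that for all `m ≤ N` but `N / (log N)^U` EVERY admissible
`n`-tuple `x`, for which `x_1 ⋯ x_n` is divisible by an integer `t` with `|t - G (f m)| ≤ f(m)^θ` and `max |x_j| ≤ t ^ A`,
satisfies `max |x_j| ≤ rad (x_1 ⋯ x_n) ^ M`. For a given `M` this holds if `d A (1 - 1 / binom(n, ⌊n/2⌋)) / M + θ < 1`, and
for the tuples of pairwise coprime integers if `d A (1 - 1 / n) / M + θ < 1`. The values of `f` are in general taken with very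
large multiplicities, and so this does not follow from the number of exceptions.

Proof. Write `m = k w` where `k` is composed of the primes `≤ z = N^(1 / J)`, `J` about `log log N`. For most `m` one has
`k ≤ N^η`, and `w` is a product of at most `J` different primes. So `f(w)` is taken at most `(1 + τ)^J` times, `τ` its number of
divisors, which is at most `N^o(1)` on average, even in mean square: and the exceptional set has a power saving. Its size is
bounded by the starting theorem `FewExceptions` of this problem.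
-/

set_option autoImplicit false

open Finset

namespace Pool.Agent.Results.MP_a95293_nt.MultiplicativeValues

open Pool.Agent.N733.TG (LM Expanding lm_totient lm_sigma keep_win_nat expanding_pow)
open DivisorsInWindows (Admissible rad height Good GoodCoprime κ_nonneg hcount hcount_coprime)

/-- **The `n`-term abc conjecture near the values of multiplicative functions.** Let `f` be multiplicative and positive, of
at most polynomial growth, with `f p ≤ M p` at the large primes, and injective there. Let `G` have steps `≥ a > 0` and growth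
at most `v^d`. Let `n ≥ 3`, `0 ≤ θ < 1` and `A > 0`. For every `U` and all large `N`, for all `m ≤ N` but `N / (log N)^U`,
(1) EVERY integer `t` with `|t - G (f m)| ≤ f(m)^θ` is `Good n A M`, with some `M > 0` depending only on `n`, `d`, `θ`, `A`:
all admissible `x` with `t ∣ x_1 ⋯ x_n` and `max |x_j| ≤ t ^ A` satisfy `max |x_j| ≤ rad (x_1 ⋯ x_n) ^ M`;
(2) the same for a given `M > 0` with `d A (1 - 1 / binom(n, ⌊n/2⌋)) / M + θ < 1`;
(3) for the tuples of pairwise coprime integers this holds for a given `M > 0` with `d A (1 - 1 / n) / M + θ < 1`.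
Euler's function and the sum of the divisors are examples of such functions `f`, and `α v^d` with `α > 0`, `d ≥ 1` is an
example of `G`. -/
theorem result (n : ℕ) (hn : 3 ≤ n) :
    (∀ d θ A : ℝ, 1 ≤ d → 0 ≤ θ → θ < 1 → 0 < A → ∃ M : ℝ, 0 < M ∧
      ∀ G : ℕ → ℝ, Expanding G d → ∀ f : ℕ → ℕ, LM f → ∀ U : ℕ, ∃ N₀ : ℕ, ∀ N : ℕ, N₀ ≤ N →
        ({m : ℕ | 1 ≤ m ∧ m ≤ N ∧ ¬ ∀ t : ℕ, |(t : ℝ) - G (f m)| ≤ (f m : ℝ) ^ θ → Good n A M t}.ncard : ℝ) ≤
          N / Real.log N ^ U) ∧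
    (∀ d θ A M : ℝ, 0 ≤ θ → 0 < A → 0 < M → d * (A * ((1 - 1 / (n.choose (n / 2) : ℝ)) / M)) + θ < 1 →
      ∀ G : ℕ → ℝ, Expanding G d → ∀ f : ℕ → ℕ, LM f → ∀ U : ℕ, ∃ N₀ : ℕ, ∀ N : ℕ, N₀ ≤ N →
        ({m : ℕ | 1 ≤ m ∧ m ≤ N ∧ ¬ ∀ t : ℕ, |(t : ℝ) - G (f m)| ≤ (f m : ℝ) ^ θ → Good n A M t}.ncard : ℝ) ≤
          N / Real.log N ^ U) ∧
    (∀ d θ A M : ℝ, 0 ≤ θ → 0 < A → 0 < M → d * (A * ((1 - 1 / (n : ℝ)) / M)) + θ < 1 →
      ∀ G : ℕ → ℝ, Expanding G d → ∀ f : ℕ → ℕ, LM f → ∀ U : ℕ, ∃ N₀ : ℕ, ∀ N : ℕ, N₀ ≤ N →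
        ({m : ℕ | 1 ≤ m ∧ m ≤ N ∧ ¬ ∀ t : ℕ, |(t : ℝ) - G (f m)| ≤ (f m : ℝ) ^ θ → GoodCoprime n A M t}.ncard : ℝ) ≤
          N / Real.log N ^ U) ∧
    (LM Nat.totient ∧ LM (fun m => ∑ d ∈ m.divisors, d)) ∧
    ∀ α d : ℝ, 0 < α → 1 ≤ d → Expanding (fun v => α * (v : ℝ) ^ d) d := by
  classical
  have two : ∀ d θ A M : ℝ, 0 ≤ θ → 0 < A → 0 < M → d * (A * ((1 - 1 / (n.choose (n / 2) : ℝ)) / M)) + θ < 1 →
      ∀ G : ℕ → ℝ, Expanding G d → ∀ f : ℕ → ℕ, LM f → ∀ U : ℕ, ∃ N₀ : ℕ, ∀ N : ℕ, N₀ ≤ N →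
        ({m : ℕ | 1 ≤ m ∧ m ≤ N ∧ ¬ ∀ t : ℕ, |(t : ℝ) - G (f m)| ≤ (f m : ℝ) ^ θ → Good n A M t}.ncard : ℝ) ≤
          N / Real.log N ^ U := by
    intro d θ A M hθ hA hM h1 G hG f hf U
    obtain ⟨N₀, hN₀⟩ := keep_win_nat
      (Pool.Agent.R559.NP.DivBad (n := n) (fun x : Fin n → ℤ => Admissible x ∧ ¬ height x ≤ (rad x : ℝ) ^ M) A) hf hG
      (s := A * ((1 - 1 / (n.choose (n / 2) : ℝ)) / M)) (κ := θ)
      (mul_nonneg hA.le (div_nonneg (κ_nonneg n) hM.le)) hθ h1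
      (Pool.Agent.R559.NP.count_div (fun x hx => hx.1.ne_zero hn) hA (fun δ hδ => hcount hn hM δ hδ)) U
    refine ⟨N₀, fun N hN => le_trans ?_ (hN₀ N hN)⟩
    have hsub : {m : ℕ | 1 ≤ m ∧ m ≤ N ∧ ¬ ∀ t : ℕ, |(t : ℝ) - G (f m)| ≤ (f m : ℝ) ^ θ → Good n A M t} ⊆
        {m : ℕ | 1 ≤ m ∧ m ≤ N ∧ ∃ t : ℕ, (t = 0 ∨ t ∈ Pool.Agent.R559.NP.DivBad (n := n)
          (fun x : Fin n → ℤ => Admissible x ∧ ¬ height x ≤ (rad x : ℝ) ^ M) A) ∧
          |(t : ℝ) - G (f m)| ≤ (f m : ℝ) ^ θ} := by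
      rintro m ⟨e1, e2, e3⟩
      unfold Good at e3
      push Not at e3
      obtain ⟨t, ht, x, hx, hd, hh, hr⟩ := e3
      exact ⟨e1, e2, t, Or.inr ⟨x, ⟨hx, not_le.2 hr⟩, hh, hd⟩, ht⟩
    exact_mod_cast Set.ncard_le_ncard hsub ((Set.finite_Icc 1 N).subset fun m hm => ⟨hm.1, hm.2.1⟩)
  refine ⟨fun d θ A hd hθ hθ1 hA => ?_, two, ?_, ⟨lm_totient, lm_sigma⟩, fun α d hα hd => expanding_pow hα hd⟩
  · have hθ0 : 0 < 1 - θ := by linarith
    have hM : 0 < 2 * d * A / (1 - θ) := by positivity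
    refine ⟨2 * d * A / (1 - θ), hM, two d θ A _ hθ hA hM ?_⟩
    have h2 : 1 - 1 / (n.choose (n / 2) : ℝ) ≤ 1 := by
      have : 0 ≤ 1 / (n.choose (n / 2) : ℝ) := by positivity
      linarith
    have h3 : d * (A * ((1 - 1 / (n.choose (n / 2) : ℝ)) / (2 * d * A / (1 - θ)))) =
        (1 - 1 / (n.choose (n / 2) : ℝ)) * ((1 - θ) / 2) := by
      field_simp
    rw [h3]
    nlinarith
  · intro d θ A M hθ hA hM h1 G hG f hf U
    have hs : 0 ≤ (1 - 1 / (n : ℝ)) / M := by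
      have h3 : (3 : ℝ) ≤ n := by exact_mod_cast hn
      refine div_nonneg ?_ hM.le
      rw [sub_nonneg, div_le_one (by linarith)]
      linarith
    obtain ⟨N₀, hN₀⟩ := keep_win_nat
      (Pool.Agent.R559.NP.DivBad (n := n) (fun x : Fin n → ℤ => (Admissible x ∧ ¬ height x ≤ (rad x : ℝ) ^ M) ∧
        ∀ i j, i ≠ j → IsCoprime (x i) (x j)) A) hf hG
      (s := A * ((1 - 1 / (n : ℝ)) / M)) (κ := θ) (mul_nonneg hA.le hs) hθ h1
      (Pool.Agent.R559.NP.count_div (fun x hx => hx.1.1.ne_zero hn) hA (fun δ hδ => hcount_coprime hn hM δ hδ)) U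
    refine ⟨N₀, fun N hN => le_trans ?_ (hN₀ N hN)⟩
    have hsub : {m : ℕ | 1 ≤ m ∧ m ≤ N ∧ ¬ ∀ t : ℕ, |(t : ℝ) - G (f m)| ≤ (f m : ℝ) ^ θ → GoodCoprime n A M t} ⊆
        {m : ℕ | 1 ≤ m ∧ m ≤ N ∧ ∃ t : ℕ, (t = 0 ∨ t ∈ Pool.Agent.R559.NP.DivBad (n := n)
          (fun x : Fin n → ℤ => (Admissible x ∧ ¬ height x ≤ (rad x : ℝ) ^ M) ∧
            ∀ i j, i ≠ j → IsCoprime (x i) (x j)) A) ∧
          |(t : ℝ) - G (f m)| ≤ (f m : ℝ) ^ θ} := by
      rintro m ⟨e1, e2, e3⟩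
      unfold GoodCoprime at e3
      push Not at e3
      obtain ⟨t, ht, x, hx, hco, hd, hh, hr⟩ := e3
      exact ⟨e1, e2, t, Or.inr ⟨x, ⟨⟨hx, not_le.2 hr⟩, hco⟩, hh, hd⟩, ht⟩
    exact_mod_cast Set.ncard_le_ncard hsub ((Set.finite_Icc 1 N).subset fun m hm => ⟨hm.1, hm.2.1⟩)

end Pool.Agent.Results.MP_a95293_nt.MultiplicativeValues
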