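import Pool.Agent.N671.DA.Win
import Pool.Agent.Results.MP_a95293_nt.DivisorsInWindows

/-!
# The `n`-term abc conjecture for tuples with a divisor of the product near functions of the denominators of good approximations

Let `α_1, …, α_m` be real numbers. We consider the natural numbers `q` with `‖q α_j - β_j‖ ≤ c q^(-τ)` for all `j`, `‖x‖` the
distance to the nearest integer; for `β = 0`, `c = 1`, `τ = 1 / m` these include the denominators of all best simultaneous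
approximations (the denominators of the convergents for `m = 1`). They form a very sparse sequence for almost all `α` if
`τ = 1 / m`. Let `G` be a function with steps bounded below by a positive constant and growth at most `v^d`, for example
`α v^d`. Let `n ≥ 3`, `A > 0` and `0 ≤ κ < 1`. There is `M` (depending on `n`, `d`, `A`, `κ`) such that for all `α` in `ℝ^m`
outside a set of Hausdorff dimension less than `m`, so for almost all `α`, and all `c`, for all but finitely many `q` with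
`‖q α_j - β_j‖ ≤ c q^(-1 / m)` EVERY admissible `n`-tuple `x`, for which `x_1 ⋯ x_n` is divisible by an integer `t` with
`|t - G q| ≤ q^κ` and `max |x_j| ≤ t ^ A`, satisfies `max |x_j| ≤ rad (x_1 ⋯ x_n) ^ M`. For given `M`, `τ > 0` this holds for
all `α` outside a set of dimension at most `(m + d A (1 - 1 / binom(n, ⌊n/2⌋)) / M + κ) / (1 + τ)`, and for the tuples of
pairwise coprime integers outside a set of dimension at most `(m + d A (1 - 1 / n) / M + κ) / (1 + τ)`.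

Proof. The `q` such that some exceptional integer `t` is near `G q` form a thin set, by the starting theorem `FewExceptions` of
this problem; and the `α` with `‖q α_j - β_j‖ ≤ c q^(-τ)` for all `j` and infinitely many `q` of such a set are covered by few
small cubes.
-/

set_option autoImplicit false

open Finset

namespace Pool.Agent.Results.MP_a95293_nt.SimultaneousApproximations

open Pool.Agent.N671.DA (Solves Expanding approx_win_nat expanding_pow)
open DivisorsInWindows (Admissible rad height Good GoodCoprime κ_nonneg hcount hcount_coprime)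

/-- **The `n`-term abc conjecture near the denominators of good approximations.** Let `G` have steps `≥ a > 0` and growth at
most `v^d`. Let `n ≥ 3` and `A > 0`.
(1) Let `0 ≤ κ < 1`. For some `M > 0` depending only on `n`, `d`, `κ`, `A`, for all `m ≥ 1` and all `α` in `ℝ^m` outside a set of
Hausdorff dimension less than `m` and all `c`, for all large `q` with `‖q α_j - β_j‖ ≤ c q^(-1 / m)` for all `j`, EVERY natural
number `t` with `|t - G q| ≤ q^κ` is `Good n A M`: all admissible `x` with `t ∣ x_1 ⋯ x_n` and `max |x_j| ≤ t ^ A` satisfy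
`max |x_j| ≤ rad (x_1 ⋯ x_n) ^ M`;
(2) for given `M > 0`, `0 ≤ κ ≤ 1` and `τ > 0` this holds for all `α` outside a set of dimension at most
`(m + d A (1 - 1 / binom(n, ⌊n/2⌋)) / M + κ) / (1 + τ)` and all `q` with `‖q α_j - β_j‖ ≤ c q^(-τ)`;
(3) for the tuples of pairwise coprime integers with `(m + d A (1 - 1 / n) / M + κ) / (1 + τ)`.
The functions `α v^d` with `α > 0`, `d ≥ 1` are examples of `G`. -/
theorem result (n : ℕ) (hn : 3 ≤ n) :
    (∀ d κ A : ℝ, 1 ≤ d → 0 ≤ κ → κ < 1 → 0 < A → ∃ M : ℝ, 0 < M ∧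
      ∀ G : ℕ → ℝ, Expanding G d → ∀ m : ℕ, 1 ≤ m → ∀ β : Fin m → ℝ,
      ∃ E : Set (Fin m → ℝ), dimH E < m ∧
        ∀ α, α ∉ E → ∀ c : ℝ, ∃ Q : ℕ, ∀ q : ℕ, Q ≤ q → Solves α β q (c * (q : ℝ) ^ (-(1 / (m : ℝ)))) →
          ∀ t : ℕ, |(t : ℝ) - G q| ≤ (q : ℝ) ^ κ → Good n A M t) ∧
    (∀ d κ A M : ℝ, 0 ≤ κ → κ ≤ 1 → 0 < A → 0 < M → ∀ G : ℕ → ℝ, Expanding G d →
      ∀ (m : ℕ) (β : Fin m → ℝ) (τ : ℝ), 0 < τ →
      ∃ E : Set (Fin m → ℝ),
        dimH E ≤ ENNReal.ofReal ((m + (d * (A * ((1 - 1 / (n.choose (n / 2) : ℝ)) / M)) + κ)) / (1 + τ)) ∧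
        ∀ α, α ∉ E → ∀ c : ℝ, ∃ Q : ℕ, ∀ q : ℕ, Q ≤ q → Solves α β q (c * (q : ℝ) ^ (-τ)) →
          ∀ t : ℕ, |(t : ℝ) - G q| ≤ (q : ℝ) ^ κ → Good n A M t) ∧
    (∀ d κ A M : ℝ, 0 ≤ κ → κ ≤ 1 → 0 < A → 0 < M → ∀ G : ℕ → ℝ, Expanding G d →
      ∀ (m : ℕ) (β : Fin m → ℝ) (τ : ℝ), 0 < τ →
      ∃ E : Set (Fin m → ℝ),
        dimH E ≤ ENNReal.ofReal ((m + (d * (A * ((1 - 1 / (n : ℝ)) / M)) + κ)) / (1 + τ)) ∧
        ∀ α, α ∉ E → ∀ c : ℝ, ∃ Q : ℕ, ∀ q : ℕ, Q ≤ q → Solves α β q (c * (q : ℝ) ^ (-τ)) →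
          ∀ t : ℕ, |(t : ℝ) - G q| ≤ (q : ℝ) ^ κ → GoodCoprime n A M t) ∧
    ∀ α d : ℝ, 0 < α → 1 ≤ d → Expanding (fun v => α * (v : ℝ) ^ d) d := by
  classical
  have two : ∀ d κ A M : ℝ, 0 ≤ κ → κ ≤ 1 → 0 < A → 0 < M → ∀ G : ℕ → ℝ, Expanding G d →
      ∀ (m : ℕ) (β : Fin m → ℝ) (τ : ℝ), 0 < τ →
      ∃ E : Set (Fin m → ℝ),
        dimH E ≤ ENNReal.ofReal ((m + (d * (A * ((1 - 1 / (n.choose (n / 2) : ℝ)) / M)) + κ)) / (1 + τ)) ∧
        ∀ α, α ∉ E → ∀ c : ℝ, ∃ Q : ℕ, ∀ q : ℕ, Q ≤ q → Solves α β q (c * (q : ℝ) ^ (-τ)) →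
          ∀ t : ℕ, |(t : ℝ) - G q| ≤ (q : ℝ) ^ κ → Good n A M t := by
    intro d κ A M hκ hκ1 hA hM G hG m β τ hτ
    obtain ⟨E, hE, hE2⟩ := approx_win_nat
      (Pool.Agent.R559.NP.DivBad (n := n) (fun x : Fin n → ℤ => Admissible x ∧ ¬ height x ≤ (rad x : ℝ) ^ M) A) hG
      (s := A * ((1 - 1 / (n.choose (n / 2) : ℝ)) / M)) (κ := κ)
      (mul_nonneg hA.le (div_nonneg (κ_nonneg n) hM.le)) hκ hκ1
      (Pool.Agent.R559.NP.count_div (fun x hx => hx.1.ne_zero hn) hA (fun δ hδ => hcount hn hM δ hδ)) β hτ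
    refine ⟨E, hE, fun α hα c => ?_⟩
    obtain ⟨Q, hQ⟩ := hE2 α hα c
    refine ⟨Q, fun q hq h1 t ht x hx hd hh => ?_⟩
    by_contra hr
    exact hQ q hq h1 t (Or.inr ⟨x, ⟨hx, hr⟩, hh, hd⟩) ht
  refine ⟨fun d κ A hd hκ hκ1 hA => ?_, two, ?_, fun α d hα hd => expanding_pow hα hd⟩
  · have hκ0 : 0 < 1 - κ := by linarith
    have hM : 0 < 2 * d * A / (1 - κ) := by positivity
    refine ⟨2 * d * A / (1 - κ), hM, fun G hG m hm β => ?_⟩
    have hm0 : (1 : ℝ) ≤ m := by exact_mod_cast hm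
    obtain ⟨E, hE, hE2⟩ := two d κ A _ hκ hκ1.le hA hM G hG m β (1 / (m : ℝ)) (by positivity)
    refine ⟨E, lt_of_le_of_lt hE ?_, hE2⟩
    have h2 : 1 - 1 / (n.choose (n / 2) : ℝ) ≤ 1 := by
      have : 0 ≤ 1 / (n.choose (n / 2) : ℝ) := by positivity
      linarith
    have h3 : d * (A * ((1 - 1 / (n.choose (n / 2) : ℝ)) / (2 * d * A / (1 - κ)))) =
        (1 - 1 / (n.choose (n / 2) : ℝ)) * ((1 - κ) / 2) := by
      field_simp
    rw [h3, ← ENNReal.ofReal_natCast, ENNReal.ofReal_lt_ofReal_iff (by linarith),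
      div_lt_iff₀ (by positivity)]
    have h4 : (m : ℝ) * (1 + 1 / (m : ℝ)) = m + 1 := by field_simp
    rw [h4]
    nlinarith
  · intro d κ A M hκ hκ1 hA hM G hG m β τ hτ
    have hs : 0 ≤ (1 - 1 / (n : ℝ)) / M := by
      have h3 : (3 : ℝ) ≤ n := by exact_mod_cast hn
      refine div_nonneg ?_ hM.le
      rw [sub_nonneg, div_le_one (by linarith)]
      linarith
    obtain ⟨E, hE, hE2⟩ := approx_win_nat
      (Pool.Agent.R559.NP.DivBad (n := n) (fun x : Fin n → ℤ => (Admissible x ∧ ¬ height x ≤ (rad x : ℝ) ^ M) ∧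
        ∀ i j, i ≠ j → IsCoprime (x i) (x j)) A) hG
      (s := A * ((1 - 1 / (n : ℝ)) / M)) (κ := κ) (mul_nonneg hA.le hs) hκ hκ1
      (Pool.Agent.R559.NP.count_div (fun x hx => hx.1.1.ne_zero hn) hA (fun δ hδ => hcount_coprime hn hM δ hδ)) β hτ
    refine ⟨E, hE, fun α hα c => ?_⟩
    obtain ⟨Q, hQ⟩ := hE2 α hα c
    refine ⟨Q, fun q hq h1 t ht x hx hco hd hh => ?_⟩
    by_contra hr
    exact hQ q hq h1 t (Or.inr ⟨x, ⟨⟨hx, hr⟩, hco⟩, hh, hd⟩) ht

end Pool.Agent.Results.MP_a95293_nt.SimultaneousApproximations
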